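import Pool.Agent.H65.CM4.Defs
import Pool.Agent.H25.HK.Targets

/-!
# CM4, part B1: the kernel, the theta functions and the Epstein zeta functions over a totally real
field

Targets of the board `cm4_modules`, rows `B1_...` (captain helper61).
-/

set_option autoImplicit false

open MeasureTheory Set Filter NumberField NumberField.InfinitePlace NumberField.Units
  NumberField.Units.dirichletUnitTheorem
open scoped Real

namespace Pool.Agent.H61.CM4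

open Pool.Agent.H65.CM4 Pool.Agent.H25.HK

/-! ### Definitions -/

/-- the metric of the point `x + i y`, with real parameters -/
noncomputable def qr (x y a b : ℝ) : ℝ := ((a + b * x) ^ 2 + (b * y) ^ 2) / (2 * y)

section

variable {k : Type} [Field k] [NumberField k] [IsTotallyReal k]

/-- the weighted sum of the metrics -/
noncomputable def qs (x y c : Pl k → ℝ) (u : V2 k) : ℝ :=
  ∑ v : Pl k, Real.exp (c v) * qr (x v) (y v) (rv v (u.1 : k)) (rv v (u.2 : k))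

/-- the product of the metrics -/
noncomputable def qp (x y : Pl k → ℝ) (u : V2 k) : ℝ :=
  ∏ v : Pl k, qr (x v) (y v) (rv v (u.1 : k)) (rv v (u.2 : k))

open scoped Classical in
/-- the theta function -/
noncomputable def th2 (M : La k) (x y c : Pl k → ℝ) : ℝ :=
  ∑' u : V2 k, if u ∈ M then Real.exp (-(2 * π) * qs x y c u) else 0

/-- the covolume -/
noncomputable def Dm (M : La k) : ℕ := dk k * ix M

open scoped Classical in
/-- the theta function averaged over the units -/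
noncomputable def f2 (M : La k) (x y : Pl k → ℝ) (t : ℝ) : ℝ :=
  ∫ z in Fd k, th2 M x y (yc k (Real.log t) z)

open scoped Classical in
/-- the volume of the fundamental domain -/
noncomputable def vF (k : Type) [Field k] [NumberField k] : ℝ := volume.real (Fd k)

/-- the matrix of the embeddings of the vectors `b i` -/
noncomputable def Bm (b : Pl k × Fin 2 → V2 k) : Matrix (Pl k × Fin 2) (Pl k × Fin 2) ℝ :=
  fun p i => if p.2 = 0 then rv p.1 ((b i).1 : k) else rv p.1 ((b i).2 : k)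

/-- `b` is an integral basis of the lattice `M` -/
def Bas (M : La k) (b : Pl k × Fin 2 → V2 k) : Prop :=
  ∀ u : V2 k, u ∈ M ↔ ∃ m : Pl k × Fin 2 → ℤ, ∑ i, m i • b i = u

end

/-! ### The kernel -/

/-- (GGB) the Gamma factor. -/
def T_GGB : Prop :=
  (∀ w : ℂ, 0 < w.re → DifferentiableAt ℂ gG w) ∧ ∀ R : ℝ, ∃ (C : ℝ) (j : ℕ), 0 ≤ C ∧
    ∀ w : ℂ, 0 < w.re → w.re ≤ R →
      ‖gG w‖ ≤ C * (1 + |w.im|) ^ j * Real.exp (-(π * |w.im| / 2))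

/-- (KIN) the integrand of the kernel. -/
def T_KIN : Prop :=
  ∀ (n : ℕ) (R : ℝ), ∃ (C : ℝ) (j : ℕ), 0 ≤ C ∧ ∀ (c τ : ℝ) (s r : ℂ), 0 < c → c ≤ R →
    |s.re| ≤ 3 → r ∈ Complex.slitPlane →
    ‖gG (c + τ * Complex.I) ^ n * Complex.exp ((c + τ * Complex.I - s) ^ 2) *
        r ^ (-(c + τ * Complex.I))‖ ≤
      C * (1 + |τ|) ^ j * Real.exp (-(π * n * |τ| / 2)) * Real.exp (-(τ - s.im) ^ 2) *
        (‖r‖ ^ (-c) * Real.exp (|r.arg| * |τ|))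

/-- (KSH) the line of integration. -/
def T_KSH : Prop :=
  ∀ (n : ℕ) (s r : ℂ) (c : ℝ), -3 ≤ s.re → s.re < 2 → s.re < c → 0 < c →
    r ∈ Complex.slitPlane →
    Integrable (fun t : ℝ => gG (c + t * Complex.I) ^ n *
      (Complex.exp ((c + t * Complex.I - s) ^ 2) / (c + t * Complex.I - s)) *
        r ^ (-(c + t * Complex.I))) ∧
    Kc n s r = ((1 / (2 * π) : ℝ) : ℂ) * ∫ t : ℝ, gG (c + t * Complex.I) ^ n *
      (Complex.exp ((c + t * Complex.I - s) ^ 2) / (c + t * Complex.I - s)) *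
        r ^ (-(c + t * Complex.I))

/-- (KCB) the bound of the kernel. -/
def T_KCB : Prop :=
  ∀ (n B : ℕ) (κ : ℝ), 0 < κ → κ ≤ 1 / 8 → ∃ (C : ℝ) (j : ℕ), 0 ≤ C ∧ ∀ s r : ℂ,
    |s.re - 1 / 2| ≤ κ → 0 < r.re → |r.im| ≤ r.re / (10 * (1 + |s.im|)) →
    ‖Kc n s r‖ ≤ C * (1 + |s.im|) ^ j * Real.exp (-(π * n * |s.im| / 2)) *
      (‖r‖ ^ (-(1 / 2 + 2 * κ)) * (1 + ‖r‖) ^ (-(B : ℝ)))

/-- (KCD) the kernel is holomorphic. -/
def T_KCD : Prop :=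
  ∀ (n : ℕ) (s : ℂ), -3 ≤ s.re → s.re < 2 → DifferentiableOn ℂ (Kc n s) Complex.slitPlane

/-! ### Lattices -/

/-- (IXD) indices. -/
def T_IXD : Prop :=
  ∀ (k : Type) [Field k] [NumberField k] [IsTotallyReal k],
    0 < dk k ∧ 0 < dg k ∧ Fintype.card (Pl k) = dg k ∧
    (∀ (M : La k) (b : ℕ), 0 < b → (∀ u : V2 k, (b : 𝓞 k) • u ∈ M) → ix M ≠ 0) ∧
    (∀ M : La k, ix M ≠ 0 → ix (du M) ≠ 0) ∧
    ∀ M : La k, ix M ≠ 0 → ∀ u : V2 k, (ix M : 𝓞 k) • u ∈ M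

/-- (LBA) a basis of a lattice of finite index. -/
def T_LBA : Prop :=
  ∀ (k : Type) [Field k] [NumberField k] [IsTotallyReal k] [DecidableEq (Pl k)] (M : La k),
    ix M ≠ 0 → ∃ b : Pl k × Fin 2 → V2 k, Bas M b ∧ |(Bm b).det| = Dm M

/-- (DUB) the dual basis. -/
def T_DUB : Prop :=
  ∀ (k : Type) [Field k] [NumberField k] [IsTotallyReal k] [DecidableEq (Pl k)] (M : La k)
    (b : Pl k × Fin 2 → V2 k), ix M ≠ 0 → Bas M b → |(Bm b).det| = Dm M →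
    (∀ (u w : V2 k), ((Algebra.trace ℤ (𝓞 k) (det u w) : ℤ) : ℝ) =
      ∑ v : Pl k, (rv v (u.1 : k) * rv v (w.2 : k) - rv v (u.2 : k) * rv v (w.1 : k))) ∧
    ∀ m : Pl k × Fin 2 → ℤ, ∃! u : V2 k, u ∈ du M ∧
      ∀ i, Algebra.trace ℤ (𝓞 k) (det u (b i)) = (Dm M : ℤ) * m i

/-! ### Theta functions -/

open scoped Classical in
/-- (THT) the theta inversion. -/
def T_THT : Prop :=
  ∀ (k : Type) [Field k] [NumberField k] [IsTotallyReal k] (M : La k) (x y c : Pl k → ℝ),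
    ix M ≠ 0 → (∀ v, 0 < y v) →
    Summable (fun u : V2 k => if u ∈ M then Real.exp (-(2 * π) * qs x y c u) else 0) ∧
    th2 M x y c = Real.exp (-∑ v, c v) / Dm M *
      th2 (du M) x y (fun v => -c v - 2 * Real.log (Dm M))

open scoped Classical in
/-- (UI2) invariance under the units. -/
def T_UI2 : Prop :=
  ∀ (k : Type) [Field k] [NumberField k] [IsTotallyReal k] (x y : Pl k → ℝ) (τ : ℝ)
    (z : logSpace k) (ε : (𝓞 k)ˣ),
    (∀ u : V2 k, qs x y (yc k τ (z + logEmbedding k (Additive.ofMul ε))) u =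
      qs x y (yc k τ z) ((ε : 𝓞 k) • u)) ∧
    (∀ u : V2 k, qp x y ((ε : 𝓞 k) • u) = qp x y u) ∧
    ∀ M : La k, th2 M x y (yc k τ (z + logEmbedding k (Additive.ofMul ε))) =
      th2 M x y (yc k τ z)

/-- (CT2) continuity. -/
def T_CT2 : Prop :=
  ∀ (k : Type) [Field k] [NumberField k] [IsTotallyReal k] (M : La k) (x y : Pl k → ℝ),
    (∀ v, 0 < y v) → Continuous (th2 M x y)

open scoped Classical in
/-- (DC2) decay. -/
def T_DC2 : Prop :=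
  ∀ (k : Type) [Field k] [NumberField k] [IsTotallyReal k] (M : La k) (x y : Pl k → ℝ),
    (∀ v, 0 < y v) → ∃ C c : ℝ, 0 < c ∧ ∀ t : ℝ, 1 ≤ t → ∀ z ∈ Fd k,
      |th2 M x y (yc k (Real.log t) z) - 1| ≤ C * Real.exp (-c * t ^ ((2 : ℝ) / dg k))

open scoped Classical in
/-- (WP2) the pair of functions for Mathlib's abstract functional equation. -/
def T_WP2 : Prop :=
  ∀ (k : Type) [Field k] [NumberField k] [IsTotallyReal k] (M : La k) (x y : Pl k → ℝ),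
    ix M ≠ 0 → (∀ v, 0 < y v) → ∃ P : WeakFEPair ℂ,
      (∀ t, P.f t = (f2 M x y t : ℂ)) ∧
      (∀ t, P.g t = (f2 (du M) x y (((Dm M : ℝ) ^ dg k)⁻¹ * t) : ℂ)) ∧
      P.k = 2 ∧ P.ε = (((Dm M : ℝ)⁻¹ : ℝ) : ℂ) ∧ P.f₀ = ((vF k : ℝ) : ℂ) ∧ P.g₀ = ((vF k : ℝ) : ℂ)

/-! ### Unfolding -/

/-- (FOR) representatives modulo the units. -/
def T_FOR : Prop :=
  ∀ (k : Type) [Field k] [NumberField k],
    (∀ u : V2 k, u ∈ Fo k → u ≠ 0) ∧
    (∀ (ε : (𝓞 k)ˣ) (u : V2 k), ε • u = (ε : 𝓞 k) • u) ∧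
    ∀ u : V2 k, u ≠ 0 → ∃! p : (𝓞 k)ˣ × V2 k, p.2 ∈ Fo k ∧ p.1 • p.2 = u

open scoped Classical in
/-- (GI2) the Gamma integral. -/
def T_GI2 : Prop :=
  ∀ (k : Type) [Field k] [NumberField k] [IsTotallyReal k] (q : Pl k → ℝ) (s : ℂ),
    (∀ v, 0 < q v) → 0 < s.re →
    Integrable (fun p : ℝ × logSpace k =>
      (Real.exp (-(2 * π) * ∑ v, Real.exp (yc k p.1 p.2 v) * q v) : ℂ) *
        Complex.exp (2 * s * p.1)) ∧
    ∫ p : ℝ × logSpace k, (Real.exp (-(2 * π) * ∑ v, Real.exp (yc k p.1 p.2 v) * q v) : ℂ) *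
        Complex.exp (2 * s * p.1) =
      ((2 : ℂ) ^ dg k)⁻¹ * (Complex.Gamma s * (2 * (π : ℂ)) ^ (-s)) ^ dg k *
        ((∏ v, q v : ℝ) : ℂ) ^ (-s)

open scoped Classical in
/-- (ME2) the Mellin transform of the averaged theta function. -/
def T_ME2 : Prop :=
  ∀ (k : Type) [Field k] [NumberField k] [IsTotallyReal k] (M : La k) (x y : Pl k → ℝ) (s : ℂ),
    ix M ≠ 0 → (∀ v, 0 < y v) → 1 < s.re →
    (∀ u : V2 k, u ≠ 0 → 0 < qp x y u) ∧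
    Summable (fun u : V2 k => if u ∈ M ∧ u ∈ Fo k then (qp x y u) ^ (-s.re) else 0) ∧
    mellin (fun t => ((f2 M x y t - vF k : ℝ) : ℂ)) (2 * s) =
      2 * ((2 : ℂ) ^ dg k)⁻¹ * (Complex.Gamma s * (2 * (π : ℂ)) ^ (-s)) ^ dg k *
        ∑' u : V2 k, if u ∈ M ∧ u ∈ Fo k then ((qp x y u : ℝ) : ℂ) ^ (-s) else 0

open scoped Classical in
/-- the Dirichlet series of the lattice `M`, with the factor `a` -/
noncomputable def Zd {k : Type} [Field k] [NumberField k] [IsTotallyReal k] (M : La k)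
    (x y : Pl k → ℝ) (a : ℝ) (s : ℂ) : ℂ :=
  ∑' u : V2 k, if u ∈ M ∧ u ∈ Fo k then ((a * qp x y u : ℝ) : ℂ) ^ (-s) else 0

/-- (PHI) the completed function. -/
def T_PHI : Prop :=
  ∀ (k : Type) [Field k] [NumberField k] [IsTotallyReal k] (M : La k) (x y : Pl k → ℝ),
    ix M ≠ 0 → (∀ v, 0 < y v) → ∃ Φ : ℂ → ℂ, Differentiable ℂ Φ ∧
      (∀ s : ℂ, 1 < s.re → Φ s = gG s ^ dg k * Zd M x y (ix M : ℝ)⁻¹ s) ∧
      (∀ s : ℂ, 1 < s.re → Φ (1 - s) = ((1 / dk k : ℝ) : ℂ) * (gG s ^ dg k *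
        Zd (du M) x y ((ix M : ℝ) / (Dm M : ℝ) ^ (2 * dg k)) s)) ∧
      ∀ b : ℝ, ∃ (C : ℝ) (j : ℕ), ∀ s : ℂ, |s.re| ≤ b → ‖Φ s‖ ≤ C * (1 + |s.im|) ^ j

/-! ### The approximate functional equation -/

/-- (SKC) sums of kernels. -/
def T_SKC : Prop :=
  ∀ (n : ℕ) (s : ℂ) (ι : Type) (a : ι → ℝ), -3 ≤ s.re → s.re < 2 → (∀ i, 0 < a i) →
    Summable (fun i => (a i) ^ (-2 : ℝ)) →
    Summable (fun i => ‖Kc n s (a i)‖) ∧
    ∑' i, Kc n s (a i) = ((1 / (2 * π) : ℝ) : ℂ) * ∫ t : ℝ, gG (2 + t * Complex.I) ^ n *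
      (∑' i, ((a i : ℝ) : ℂ) ^ (-(2 + t * Complex.I))) *
        (Complex.exp ((2 + t * Complex.I - s) ^ 2) / (2 + t * Complex.I - s))

/-- (SHI) the contour shift across the pole. -/
def T_SHI : Prop :=
  ∀ (Φ : ℂ → ℂ) (s : ℂ), Differentiable ℂ Φ →
    (∀ b : ℝ, ∃ (C : ℝ) (j : ℕ), ∀ w : ℂ, |w.re| ≤ b → ‖Φ w‖ ≤ C * (1 + |w.im|) ^ j) →
    -1 < s.re → s.re < 2 →
    ((1 / (2 * π) : ℝ) : ℂ) * (∫ t : ℝ, Φ (2 + t * Complex.I) *
        (Complex.exp ((2 + t * Complex.I - s) ^ 2) / (2 + t * Complex.I - s))) +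
      ((1 / (2 * π) : ℝ) : ℂ) * (∫ t : ℝ, Φ (1 - (2 + t * Complex.I)) *
        (Complex.exp ((2 + t * Complex.I - (1 - s)) ^ 2) / (2 + t * Complex.I - (1 - s)))) = Φ s

open scoped Classical in
/-- (EZA) the completed Epstein zeta function. -/
def T_EZA : Prop :=
  ∀ (k : Type) [Field k] [NumberField k] [IsTotallyReal k] (M : La k) (x y : Pl k → ℝ),
    ix M ≠ 0 → (∀ v, 0 < y v) →
    (∀ u : V2 k, u ≠ 0 → 0 < qp x y u) ∧
    (∀ u : V2 k, qn (fun v => (x v : ℂ)) (fun v => (y v : ℂ)) u = ((qp x y u : ℝ) : ℂ)) ∧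
    (∀ σ : ℝ, 1 < σ → Summable (fun u : V2 k => if u ∈ M ∧ u ∈ Fo k then (qp x y u) ^ (-σ) else 0)) ∧
    ∃ Φ : ℂ → ℂ, Differentiable ℂ Φ ∧
      (∀ b : ℝ, ∃ (C : ℝ) (j : ℕ), ∀ s : ℂ, |s.re| ≤ b → ‖Φ s‖ ≤ C * (1 + |s.im|) ^ j) ∧
      (∀ s : ℂ, -1 < s.re → s.re < 2 → Ez s M x y = Φ s) ∧
      ∀ s : ℂ, 1 < s.re → Φ s = gG s ^ dg k *
        ∑' u : V2 k, if u ∈ M ∧ u ∈ Fo k then
          (qn (fun v => (x v : ℂ)) (fun v => (y v : ℂ)) u / ix M) ^ (-s) else 0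

end Pool.Agent.H61.CM4
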