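import Pool.Agent.H89.CM4.Targets2b

/-!
# A pair of vectors of a lattice with a small determinant
-/

set_option autoImplicit false

open MeasureTheory Set Filter NumberField NumberField.InfinitePlace
open scoped Real

namespace Pool.Agent.H61.CM4

open Pool.Agent.H65.CM4 Pool.Agent.H89.CM4

variable (k : Type) [Field k] [NumberField k] [IsTotallyReal k]

/-- the norm, a natural number -/
noncomputable def bN (x : 𝓞 k) : ℕ := (Algebra.norm ℤ x).natAbs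

variable {k}

theorem bix_hur : ∃ c : ℤ, c ≠ 0 ∧ ∀ a b : 𝓞 k, b ≠ 0 → ∃ (q : 𝓞 k) (r : ℤ), r ∣ c ∧
    bN k ((r : 𝓞 k) * a - q * b) < bN k b := by
  classical
  let bS := RingOfIntegers.basis k
  refine ⟨∏ m ∈ ClassGroup.finsetApprox bS AbsoluteValue.absIsAdmissible, m, ?_, ?_⟩
  · intro h
    apply ClassGroup.prod_finsetApprox_ne_zero bS AbsoluteValue.absIsAdmissible
    rw [h, map_zero]
  · intro a b hb
    obtain ⟨q, r, hr, hlt⟩ :=
      ClassGroup.exists_mem_finset_approx' bS AbsoluteValue.absIsAdmissible a hb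
    refine ⟨q, r, Finset.dvd_prod_of_mem _ hr, ?_⟩
    rw [zsmul_eq_mul] at hlt
    unfold bN
    have h2 : ∀ z : ℤ, AbsoluteValue.abs z = ((z.natAbs : ℕ) : ℤ) := by
      intro z
      rw [Int.natCast_natAbs]; rfl
    rw [h2, h2] at hlt
    exact_mod_cast hlt

theorem bix_zero (x : 𝓞 k) (h : bN k x < 1) : x = 0 := by
  have h1 : bN k x = 0 := by omega
  unfold bN at h1
  rw [Int.natAbs_eq_zero] at h1
  exact Algebra.norm_eq_zero_iff.mp h1

theorem bix_mem (M : La k) (u : V2 k) : ((ix M : ℕ) : 𝓞 k) • u ∈ M := by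
  have h := M.toAddSubgroup.nsmul_index_mem u
  rw [Nat.cast_smul_eq_nsmul]
  exact h

theorem bix_ex : ∃ c : ℤ, c ≠ 0 ∧ ∀ M : La k, ix M ≠ 0 → ∃ u ∈ M, ∃ v ∈ M, det u v ≠ 0 ∧
    ∀ x ∈ M, ((c : 𝓞 k)) • x ∈ Submodule.span (𝓞 k) ({u, v} : Set (V2 k)) := by
  obtain ⟨c, hc, H⟩ := bix_hur (k := k)
  refine ⟨c * c, mul_ne_zero hc hc, fun M hM => ?_⟩
  have hm : ((ix M : ℕ) : 𝓞 k) ≠ 0 := by exact_mod_cast hM
  have e1 : ∃ n : ℕ, ∃ x : 𝓞 k, x ≠ 0 ∧ ((x, 0) : V2 k) ∈ M ∧ bN k x = n := by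
    refine ⟨_, ((ix M : ℕ) : 𝓞 k), hm, ?_, rfl⟩
    have h := bix_mem M (1, 0)
    simpa using h
  have e2 : ∃ n : ℕ, ∃ x y : 𝓞 k, y ≠ 0 ∧ ((x, y) : V2 k) ∈ M ∧ bN k y = n := by
    refine ⟨_, 0, ((ix M : ℕ) : 𝓞 k), hm, ?_, rfl⟩
    have h := bix_mem M (0, 1)
    simpa using h
  classical
  obtain ⟨v, hv, hvM, hvN⟩ := Nat.find_spec e1
  obtain ⟨w1, w2, hw, hwM, hwN⟩ := Nat.find_spec e2
  have m1 : ∀ x : 𝓞 k, ((x, 0) : V2 k) ∈ M → bN k x < bN k v → x = 0 := by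
    intro x hx hlt
    by_contra hne
    rw [hvN] at hlt
    exact Nat.find_min e1 hlt ⟨x, hne, hx, rfl⟩
  have m2 : ∀ x y : 𝓞 k, ((x, y) : V2 k) ∈ M → bN k y < bN k w2 → y = 0 := by
    intro x y hx hlt
    by_contra hne
    rw [hwN] at hlt
    exact Nat.find_min e2 hlt ⟨x, y, hne, hx, rfl⟩
  refine ⟨(v, 0), hvM, (w1, w2), hwM, ?_, ?_⟩
  · simp only [det]
    simpa using ⟨hv, hw⟩
  · rintro ⟨x, y⟩ hxy
    obtain ⟨q, r, ⟨d, hd⟩, hlt⟩ := H y w2 hw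
    have h1 : (((r : 𝓞 k) * x - q * w1, (r : 𝓞 k) * y - q * w2) : V2 k) ∈ M :=
      M.sub_mem (M.smul_mem (r : 𝓞 k) hxy) (M.smul_mem q hwM)
    have h2 := m2 _ _ h1 hlt
    rw [h2] at h1
    obtain ⟨q', r', ⟨d', hd'⟩, hlt'⟩ := H ((r : 𝓞 k) * x - q * w1) v hv
    have h3 : (((r' : 𝓞 k) * ((r : 𝓞 k) * x - q * w1) - q' * v, 0) : V2 k) ∈ M := by
      have h := M.sub_mem (M.smul_mem (r' : 𝓞 k) h1) (M.smul_mem q' hvM)
      simpa using h
    have h4 := m1 _ h3 hlt'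
    have hc1 : ((c : ℤ) : 𝓞 k) = (r : 𝓞 k) * d := by rw [hd]; push_cast; ring
    have hc2 : ((c : ℤ) : 𝓞 k) = (r' : 𝓞 k) * d' := by rw [hd']; push_cast; ring
    rw [Submodule.mem_span_pair]
    refine ⟨(d : 𝓞 k) * d' * q', (d : 𝓞 k) * c * q, ?_⟩
    have h5 : (r' : 𝓞 k) * ((r : 𝓞 k) * x - q * w1) = q' * v := sub_eq_zero.mp h4
    have h6 : (r : 𝓞 k) * y = q * w2 := sub_eq_zero.mp h2
    ext1
    · simp only [Prod.smul_mk, Prod.mk_add_mk, smul_eq_mul, Int.cast_mul]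
      calc (d : 𝓞 k) * d' * q' * v + d * c * q * w1
          = (d : 𝓞 k) * d' * (q' * v) + d * c * q * w1 := by ring
        _ = (d : 𝓞 k) * d' * ((r' : 𝓞 k) * ((r : 𝓞 k) * x - q * w1)) + d * c * q * w1 := by rw [h5]
        _ = (d : 𝓞 k) * (((r' : 𝓞 k) * d') * ((r : 𝓞 k) * x - q * w1)) + d * c * q * w1 := by ring
        _ = (d : 𝓞 k) * ((c : 𝓞 k) * ((r : 𝓞 k) * x - q * w1)) + d * c * q * w1 := by rw [← hc2]
        _ = (c : 𝓞 k) * (((r : 𝓞 k) * d) * x) := by ring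
        _ = (c : 𝓞 k) * c * x := by rw [← hc1]; ring
    · simp only [Prod.smul_mk, Prod.mk_add_mk, smul_eq_mul, Int.cast_mul, mul_zero, zero_add]
      calc (d : 𝓞 k) * c * q * w2 = (d : 𝓞 k) * c * (q * w2) := by ring
        _ = (d : 𝓞 k) * c * ((r : 𝓞 k) * y) := by rw [h6]
        _ = (c : 𝓞 k) * (((r : 𝓞 k) * d) * y) := by ring
        _ = (c : 𝓞 k) * c * y := by rw [← hc1]; ring

theorem bix_le {M N : La k} (h : N ≤ M) : ix M ∣ ix N :=
  AddSubgroup.index_dvd_of_le (H := N.toAddSubgroup) (K := M.toAddSubgroup) h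

theorem bix_mul (hI : T_IXF k) (c : 𝓞 k) (hc : c ≠ 0) (M : La k) :
    (ix (M.map (LinearMap.lsmul (𝓞 k) (V2 k) c)) : ℝ) = ix M * Nr ((c * c : 𝓞 k) : k) := by
  have hinj : Function.Injective (LinearMap.lsmul (𝓞 k) (V2 k) c).toAddMonoidHom := by
    intro x y hxy
    have h : c • x = c • y := hxy
    exact smul_right_injective _ hc h
  have h1 : ix (M.map (LinearMap.lsmul (𝓞 k) (V2 k) c)) =
      (M.toAddSubgroup.map (LinearMap.lsmul (𝓞 k) (V2 k) c).toAddMonoidHom).index := rfl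
  rw [h1, AddSubgroup.index_map_of_injective _ hinj]
  have h2 : (LinearMap.lsmul (𝓞 k) (V2 k) c).toAddMonoidHom.range =
      (Submodule.span (𝓞 k) ({(c, 0), (0, c)} : Set (V2 k))).toAddSubgroup := by
    ext ⟨x, y⟩
    rw [AddMonoidHom.mem_range, Submodule.mem_toAddSubgroup, Submodule.mem_span_pair]
    constructor
    · rintro ⟨⟨a, b⟩, hab⟩
      have h : c • ((a, b) : V2 k) = (x, y) := hab
      refine ⟨a, b, ?_⟩
      rw [← h]
      ext1 <;> simp [mul_comm]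
    · rintro ⟨a, b, hab⟩
      refine ⟨(a, b), ?_⟩
      change c • ((a, b) : V2 k) = (x, y)
      rw [← hab]
      ext1 <;> simp [mul_comm]
  have h3 := hI (c, 0) (0, c) (by simp [det, hc])
  rw [h2]
  have h4 : (det ((c, 0) : V2 k) (0, c)) = c * c := by simp [det]
  rw [h4] at h3
  unfold ix at h3 ⊢
  rw [Nat.cast_mul, h3]

end Pool.Agent.H61.CM4

namespace Pool.Agent.H61.CM4

open Pool.Agent.H65.CM4 Pool.Agent.H89.CM4

variable (k : Type) [Field k] [NumberField k] [IsTotallyReal k]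

theorem pf_BIX (hEMB : T_EMB k) (hIXF : T_IXF k) : T_BIX k := by
  have hint := hEMB.2.2.2.2.2.2.2.2.2.1
  refine ⟨?_, ?_⟩
  · intro M hM u hu v hv hd
    rw [← hIXF u v hd]
    have h1 : Submodule.span (𝓞 k) ({u, v} : Set (V2 k)) ≤ M := by
      rw [Submodule.span_le]
      rintro x (rfl | rfl)
      · exact hu
      · exact hv
    have h2 : ix (Submodule.span (𝓞 k) ({u, v} : Set (V2 k))) ≠ 0 := by
      intro h
      have h3 := hIXF u v hd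
      rw [h] at h3
      have h4 := hint (det u v) hd
      rw [← h3] at h4
      norm_num at h4
    exact_mod_cast Nat.le_of_dvd (Nat.pos_of_ne_zero h2) (bix_le h1)
  · obtain ⟨c, hc, H⟩ := bix_ex (k := k)
    have hc' : ((c : ℤ) : 𝓞 k) ≠ 0 := by exact_mod_cast hc
    refine ⟨Nr (((c : 𝓞 k) * (c : 𝓞 k) : 𝓞 k) : k), hint _ (mul_ne_zero hc' hc'), ?_⟩
    intro M hM
    obtain ⟨u, hu, v, hv, hd, hspan⟩ := H M hM
    refine ⟨u, hu, v, hv, hd, ?_⟩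
    rw [← hIXF u v hd, mul_comm, ← bix_mul hIXF (c : 𝓞 k) hc' M]
    have h1 : M.map (LinearMap.lsmul (𝓞 k) (V2 k) (c : 𝓞 k)) ≤
        Submodule.span (𝓞 k) ({u, v} : Set (V2 k)) := by
      rintro x ⟨y, hy, rfl⟩
      exact hspan y hy
    have h2 : ix (M.map (LinearMap.lsmul (𝓞 k) (V2 k) (c : 𝓞 k))) ≠ 0 := by
      intro h
      have h3 := bix_mul hIXF (c : 𝓞 k) hc' M
      rw [h] at h3
      have h4 := hint _ (mul_ne_zero hc' hc')
      have h5 : (1 : ℝ) ≤ ix M := by exact_mod_cast Nat.pos_of_ne_zero hM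
      have h6 : (1 : ℝ) * 1 ≤ ix M * Nr (((c : 𝓞 k) * (c : 𝓞 k) : 𝓞 k) : k) := by gcongr
      rw [← h3] at h6
      norm_num at h6
    exact_mod_cast Nat.le_of_dvd (Nat.pos_of_ne_zero h2) (bix_le h1)

end Pool.Agent.H61.CM4
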