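import Pool.Agent.H65.CM4.Targets1

set_option autoImplicit false

open MeasureTheory Set Filter NumberField NumberField.InfinitePlace Pool.Agent.H65.CM4
open scoped Real

namespace Pool.Agent.H61.CM4

variable {k : Type} [Field k] [NumberField k]

theorem nm_one_le {I : Ideal (𝓞 k)} (h : I ≠ ⊥) : 1 ≤ nm I := by
  unfold nm
  have : 1 ≤ Ideal.absNorm I := Nat.one_le_iff_ne_zero.2 (by
    rw [Ne, Ideal.absNorm_eq_zero_iff]; exact h)
  exact_mod_cast this

theorem prod_pf {I : Ideal (𝓞 k)} (h : I ≠ ⊥) (hs : Squarefree I) : ∏ P ∈ pf I, nm P = nm I := by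
  classical
  have h0 : I ≠ 0 := h
  have h1 : (UniqueFactorizationMonoid.normalizedFactors I).Nodup :=
    (UniqueFactorizationMonoid.squarefree_iff_nodup_normalizedFactors h0).1 hs
  have h2 : (UniqueFactorizationMonoid.normalizedFactors I).prod = I :=
    associated_iff_eq.1 (UniqueFactorizationMonoid.prod_normalizedFactors h0)
  have h3 : ∏ P ∈ pf I, P = I := by
    conv_rhs => rw [← h2]
    unfold pf
    rw [Finset.prod_eq_multiset_prod, Multiset.toFinset_val, h1.dedup, Multiset.map_id']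
  have h4 : (Ideal.absNorm I : ℝ) = ∏ P ∈ pf I, (Ideal.absNorm P : ℝ) := by
    conv_lhs => rw [← h3]
    rw [map_prod]
    push_cast
    rfl
  unfold nm
  rw [h4]

theorem abs_Rn_le {I : Ideal (𝓞 k)} (h : I ≠ ⊥) (hs : Squarefree I) (L : La k) (Q : QF k) :
    |Rn I L Q| ≤ nm I := by
  classical
  rw [← prod_pf h hs]
  unfold Rn
  rw [Finset.abs_prod]
  refine Finset.prod_le_prod (fun _ _ => abs_nonneg _) fun P hP => ?_
  have hP1 : P ∈ UniqueFactorizationMonoid.normalizedFactors I := by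
    have : P ∈ pf I := hP
    unfold pf at this
    rwa [Multiset.mem_toFinset] at this
  have h1 : 1 ≤ nm P := nm_one_le (UniqueFactorizationMonoid.prime_of_normalized_factor P hP1).ne_zero
  split_ifs
  · rw [abs_of_nonneg (by linarith)]
    linarith
  · rw [abs_neg, abs_one]
    exact h1

variable (k) [IsTotallyReal k]

theorem pf_TRV (_hEMB : T_EMB k) (hCLF : T_CLF k) (hIDC : T_IDC k) : T_TRV k := by
  intro R
  obtain ⟨hI1, hI2, C, hC, hcard⟩ := hIDC
  refine ⟨C ^ 2, by positivity, fun b A w Q hb hA hw => ?_⟩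
  have hA0 : 0 < A := by linarith
  have key : ∀ I ∈ Sq (k := k) b A, I ≠ ⊥ ∧ Squarefree I ∧ I ⊔ Ideal.span {(b : 𝓞 k)} = ⊤ ∧
      nm I ≤ A := fun I hI => (hI2 b A I).1 hI
  have hc : ((Sq (k := k) b A).card : ℝ) ≤ C * A := by
    refine le_trans ?_ (hcard A hA).1
    have : (Sq (k := k) b A).card ≤ (Id k A).card := Finset.card_le_card fun I hI =>
      (hI1 A I).2 ⟨(key I hI).1, (key I hI).2.2.2⟩
    exact_mod_cast this
  have term0 : ∀ f ∈ Sq (k := k) b A, ∀ m ∈ Sq (k := k) b A,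
      0 ≤ (1 / (nm f ^ 2 * nm m)) * (∑ L ∈ Ls f, |Rn f L Q|) * |Rn m (Lw m w) Q| := by
    intro f hf m hm
    have h1 := nm_one_le (key f hf).1
    have h2 := nm_one_le (key m hm).1
    have h3 : 0 ≤ ∑ L ∈ Ls f, |Rn f L Q| := Finset.sum_nonneg fun _ _ => abs_nonneg _
    have h4 : 0 < nm f ^ 2 * nm m := by positivity
    positivity
  have term1 : ∀ f ∈ Sq (k := k) b A, ∀ m ∈ Sq (k := k) b A,
      (1 / (nm f ^ 2 * nm m)) * (∑ L ∈ Ls f, |Rn f L Q|) * |Rn m (Lw m w) Q| ≤ A := by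
    intro f hf m hm
    have h1 := nm_one_le (key f hf).1
    have h2 := nm_one_le (key m hm).1
    have h4 : 0 < nm f ^ 2 * nm m := by positivity
    have hL : ((Ls f).card : ℝ) ≤ nm f ^ 2 := by
      obtain ⟨h5, h6⟩ := hCLF R b f hb (key f hf).1 (key f hf).2.1 (key f hf).2.2.1
      have h7 : (Ls f).card ≤ Ideal.absNorm f ^ 2 := by
        calc (Ls f).card = (Ls f).card * 1 := (mul_one _).symm
          _ ≤ (Ls f).card * (Rp R f).card := Nat.mul_le_mul_left _ h6
          _ ≤ _ := h5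
      unfold nm
      exact_mod_cast h7
    have h3 : ∑ L ∈ Ls f, |Rn f L Q| ≤ nm f ^ 2 * nm f := by
      calc ∑ L ∈ Ls f, |Rn f L Q| ≤ ∑ _L ∈ Ls f, nm f :=
            Finset.sum_le_sum fun L _ => abs_Rn_le (key f hf).1 (key f hf).2.1 L Q
        _ = (Ls f).card * nm f := by rw [Finset.sum_const, nsmul_eq_mul]
        _ ≤ _ := by gcongr
    have h5 : |Rn m (Lw m w) Q| ≤ nm m := abs_Rn_le (key m hm).1 (key m hm).2.1 _ Q
    have h30 : 0 ≤ ∑ L ∈ Ls f, |Rn f L Q| := Finset.sum_nonneg fun _ _ => abs_nonneg _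
    calc (1 / (nm f ^ 2 * nm m)) * (∑ L ∈ Ls f, |Rn f L Q|) * |Rn m (Lw m w) Q|
        ≤ (1 / (nm f ^ 2 * nm m)) * (nm f ^ 2 * nm f) * nm m := by
          gcongr
      _ = nm f := by
        have : nm f ≠ 0 := by linarith
        have : nm m ≠ 0 := by linarith
        field_simp
      _ ≤ A := (key f hf).2.2.2
  refine ⟨?_, ?_⟩
  · unfold Tw
    exact Finset.sum_nonneg fun f hf => Finset.sum_nonneg fun m hm => term0 f hf m hm
  · unfold Tw
    calc _ ≤ ∑ _f ∈ Sq (k := k) b A, ∑ _m ∈ Sq (k := k) b A, A :=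
          Finset.sum_le_sum fun f hf => Finset.sum_le_sum fun m hm => term1 f hf m hm
      _ = ((Sq (k := k) b A).card : ℝ) * (((Sq (k := k) b A).card : ℝ) * A) := by
          simp only [Finset.sum_const, nsmul_eq_mul]
      _ ≤ (C * A) * ((C * A) * A) := by gcongr
      _ = C ^ 2 * A ^ 3 := by ring
      _ ≤ C ^ 2 * A ^ 7 := by
          have : A ^ 3 ≤ A ^ 7 := pow_le_pow_right₀ hA (by norm_num)
          gcongr

end Pool.Agent.H61.CM4
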